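import Pool.Agent.V2450.GD.Core

/-!
# The conjecture of Gross and Deligne: totally real fields and reduction to Hodge classes

Fix an abelian number field `F ≠ ℚ` with an embedding in `ℂ` and let `G = Gal(F/ℚ)`; the embeddings of `F` in
`ℂ` correspond to the elements `σ` of `G`, and `c ∈ G` is the complex conjugation (`c = 1` if and only if
`F` is totally real). Let `Q = ℂˣ/ℚ̄ˣ`.

* `Theory`: `D.Tr` is the set of the admissible triples `t = (H, F, ι)` (for all `X` and `m`), `D.w t = m` is
  the weight, `D.p t σ = p(σ)` the Hodge type, `D.P t σ = P_σ(H) ∈ Q` the period; `D.two` is the class of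
  `2πi`; for a function `p` with `p(σ) + p(cσ) = m` for all `σ`, `D.g p σ ∈ Q` is the product
  `∏ Γ(1 - a/d)^{ε(a λ⁻¹)}`, where `λ` corresponds to `σ` and `ε` satisfies `d p(λ) = ∑ ε(a) ⟨λ a⟩`.
* `Holds D t σ`: the assertion of the conjecture for `t` and `σ`. `Pure D t`: the function `p` is constant,
  that is `m` is even and all the elements of `H` are Hodge classes, of type `(m/2, m/2)`.
* `IsKnown D` lists the facts which are known: `c² = 1`; the group `Q` is torsion free;
  `p(σ) + p(cσ) = m` and `p(σ) ≥ 0`; `P_σ P_{cσ} = (2πi)^m` (`polarization`: the polarization of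
  `H^m(X)` is compatible with the Betti and the de Rham structures, and the line `H_{cσ}`, which is
  the complex conjugate of `H_σ`, is not orthogonal to `H_σ`); the gamma products are multiplicative in
  `p` (Koblitz and Ogus: they do not depend on `ε`), the product for the constant function `n` is
  `(2πi)^n`, and the product of those at `σ` and `cσ` is `(2πi)^m`; Anderson's theorem for the CM types
  `φ` of `F` and `H¹` of the abelian varieties with complex multiplication by `F`; and the tensor
  product over `F` of two admissible triples, a summand of `H^{m+m'}(X × X')`, is an admissible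
  triple.
-/

set_option autoImplicit false

namespace Pool.Agent.Results.MP_b23d8d_ag.ReductionToHodgeClasses

open Pool.Agent.V2450.GD

/-- (1) If `F` is totally real the conjecture is true for all admissible triples. (2) The conjectures for
`σ` and `cσ` are equivalent. (3) If `F` is not totally real, there is for each admissible triple `t` of
weight `m` an admissible triple `s` of weight `2m` and of the constant type `p = m`, such that for each
`σ` the conjecture for `t` is equivalent to the conjecture for `s`, that is to `P_σ(s) = (2πi)^m`. (4) The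
conjecture is true for all admissible triples for the field `F` if it is true for those which
consist of Hodge classes. -/
theorem result (G Q : Type) [CommGroup G] [CommGroup Q] (D : Theory G Q) (hD : IsKnown D) :
    (D.c = 1 → ∀ t σ, Holds D t σ) ∧
    (∀ t σ, Holds D t σ ↔ Holds D t (D.c * σ)) ∧
    (D.c ≠ 1 → ∀ t, ∃ s, D.w s = 2 * D.w t ∧ (∀ σ, D.p s σ = D.w t) ∧
      ∀ σ, (Holds D t σ ↔ Holds D s σ) ∧ (Holds D t σ ↔ D.P s σ = D.two ^ D.w t)) ∧
    ((∀ t σ, Holds D t σ) ↔ ∀ s, Pure D s → ∀ σ, Holds D s σ) := by
  refine ⟨fun hc t σ => holds_of_real hD hc t σ, fun t σ => holds_conj hD t σ,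
    fun hc t => exists_pure hD hc t, fun h s _ σ => h s σ, fun h t σ => ?_⟩
  by_cases hc : D.c = 1
  · exact holds_of_real hD hc t σ
  · obtain ⟨s, _, hs2, hs3⟩ := exists_pure hD hc t
    exact ((hs3 σ).1).2 (h s (fun σ τ => by rw [hs2, hs2]) σ)

end Pool.Agent.Results.MP_b23d8d_ag.ReductionToHodgeClasses
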